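import Pool.Agent.Helper33.FQ2

/-!
# Fujita's conjecture for étale quotients by finite diagonal groups of any order

`Y ⊂ P^N` is given by a homogeneous ideal `I`, and a finite group `G` (of any order) acts by diagonal
matrices on `P^N`, preserving `Y`, freely on `Y`. Let `ω_Y = O(κ)` and `n = dim Y`, and let `Y` be a
complete intersection, or arithmetically Cohen-Macaulay. The line bundles on `X = Y/G` with pullback
`O(e)` to `Y` correspond to the characters `χ` of `G`, and their sections are the forms of degree `e`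
on the cone over `Y` on which `G` acts by `χ`.

If `A` is a line bundle on `X` with pullback `O(k)`, `k ≥ 1`, then `K_X + mA` has the pullback
`O(κ + mk)`. For `m ≥ n + 1` it is globally generated, by monomials. It is very ample if
`mk ≥ κ + 2n + 3`. More generally this holds for `K_X + L` if the pullback of `L` is `O(t)` and
`t ≥ n + 1`, resp. `t ≥ κ + 2n + 3`.
-/

set_option autoImplicit false

namespace Pool.Agent.Results.MP_9ff3e7_ag.DiagonalQuotients

open MvPolynomial Pool.Agent.Helper33.FQ

/-- Let `e = κ + t`, and let `χ` be a character of `G`. (1) If `t ≥ n + 1` then for every point of `Y`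
there is a monomial of degree `e` on which `G` acts by `χ` and which does not vanish at this point: all
line bundles `K_X + L` on `X = Y/G` for which the pullback of `L` to `Y` is `O(t)`, `t ≥ n + 1`, are
globally generated; for example `K_X + mA`, `m ≥ n + 1`, if the pullback of `A` is `O(k)`, `k ≥ 1`.
(2) If `t ≥ κ + 2n + 3` then `K_X + L` is very ample: the forms of degree `e` on which `G` acts by `χ`
separate the points of `Y` in different orbits of `G` (up to scalars), and the tangent vectors. -/
theorem result {G : Type} [Group G] [Finite G] {N : ℕ} (D : DiagonalCover G N) (n : ℕ) (κ : ℤ)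
    (hY : CompleteIntersection D.I n κ ∨ CohenMacaulay D.I n κ)
    (t e : ℕ) (he : (e : ℤ) = κ + t) (χ : G →* ℂˣ) :
    (n + 1 ≤ t → ∀ y : Fin (N + 1) → ℂ, y ≠ 0 → (∀ p ∈ D.I, eval y p = 0) →
      ∃ μ : Fin (N + 1) →₀ ℕ, Section D e χ (monomial μ 1) ∧ eval y (monomial μ 1) ≠ 0) ∧
    (κ + 2 * n + 3 ≤ t →
      (∀ y z : Fin (N + 1) → ℂ, y ≠ 0 → z ≠ 0 → (∀ p ∈ D.I, eval y p = 0) →
        (∀ p ∈ D.I, eval z p = 0) → (¬ ∃ (g : G) (c : ℂ), ∀ i, z i = c * (D.α i g * y i)) →
        ∃ F, Section D e χ F ∧ eval y F = 0 ∧ eval z F ≠ 0) ∧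
      (∀ y u : Fin (N + 1) → ℂ, y ≠ 0 → (∀ p ∈ D.I, eval y p = 0) →
        (¬ ∃ c : ℂ, ∀ i, u i = c * y i) →
        ∃ F, Section D e χ F ∧ eval y F = 0 ∧ ∑ i, eval y (pderiv i F) * u i ≠ 0)) := by
  refine ⟨fun ht y hy0 hy => free D n κ hY e (by omega) χ y hy0 hy, fun ht => ⟨?_, ?_⟩⟩
  · intro y z hy0 hz0 hy hz h
    exact sep_points D n κ hY e (by omega) χ y z hy0 hz0 hy hz h
  · intro y u hy0 hy h
    exact sep_tangents D n κ hY e (by omega) χ y u hy0 hy h

end Pool.Agent.Results.MP_9ff3e7_ag.DiagonalQuotients
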